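import Pool.Agent.W2helper5.KA.Stm2

set_option autoImplicit false

namespace Pool.Agent.W2helper71.KA2

open Pool.Agent.W2helper5.KA2

/-- a power of `g` of order dividing `p ^ c` is conjugate into `A` -/
def Q {G : Type} [Group G] (A : Subgroup G) (g : G) (p a c : ℕ) : Prop :=
  ∃ h, h⁻¹ * g ^ p ^ (a - c) * h ∈ A

theorem conj_pow' {G : Type} [Group G] (h z : G) (n : ℕ) :
    (h⁻¹ * z * h) ^ n = h⁻¹ * z ^ n * h := by
  induction n with
  | zero => simp
  | succ n ih => rw [pow_succ, ih, pow_succ]; group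

theorem Q_mono {G : Type} [Group G] (A : Subgroup G) (g : G) (p a c d : ℕ) (hdc : d ≤ c)
    (hca : c ≤ a) (hQ : Q A g p a c) : Q A g p a d := by
  obtain ⟨h, hh⟩ := hQ
  refine ⟨h, ?_⟩
  have h1 : a - d = (a - c) + (c - d) := by omega
  rw [h1, pow_add, pow_mul, ← conj_pow']
  exact A.pow_mem hh _

theorem dvd_index {G : Type} [Group G] [Finite G] (A : Subgroup G) (g : G) (p a cA : ℕ)
    (hp : p.Prime) (ho : orderOf g = p ^ a) (hmax : ∀ c ≤ a, Q A g p a c → c ≤ cA) :
    p ^ (a - cA) ∣ A.index := by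
  classical
  have hper : ∀ x : G ⧸ A, p ^ (a - cA) ∣ Function.minimalPeriod (g • ·) x := by
    intro x
    have h1 : Function.minimalPeriod (g • ·) x ∣ p ^ a := by
      apply Function.IsPeriodicPt.minimalPeriod_dvd
      show (g • ·)^[p ^ a] x = x
      rw [smul_iterate, ← ho, pow_orderOf_eq_one]
      exact one_smul G x
    obtain ⟨b, hb, hb2⟩ := (Nat.dvd_prime_pow hp).1 h1
    have h3 : (g • ·)^[p ^ b] x = x := by
      apply Function.isPeriodicPt_iff_minimalPeriod_dvd.2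
      rw [hb2]
    rw [smul_iterate] at h3
    rw [hb2]
    apply pow_dvd_pow
    have h4 : a - b ≤ cA := by
      apply hmax _ (by omega)
      have h5 : a - (a - b) = b := by omega
      unfold Q
      rw [h5]
      induction x using QuotientGroup.induction_on with
      | H x =>
        refine ⟨x, ?_⟩
        have h6 : ((g ^ p ^ b * x : G) : G ⧸ A) = (x : G ⧸ A) := h3
        have h7 := QuotientGroup.eq.1 h6.symm
        simpa [mul_assoc] using h7
    omega
  have : Fintype (Quotient (MulAction.orbitRel (Subgroup.zpowers g) (G ⧸ A))) :=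
    Fintype.ofFinite _
  rw [Subgroup.index_eq_sum_minimalPeriod A g]
  exact Finset.dvd_sum fun q _ => hper _

theorem card_eq {G : Type} [Group G] [Finite G] (A B : Subgroup G)
    (hAB : ∀ g : G, ∃ a ∈ A, ∃ b ∈ B, g = a * b) :
    Nat.card G = Nat.card (A ⊓ B : Subgroup G) * (B.index * A.index) := by
  have h1 : MulAction.stabilizer A ((1 : G) : G ⧸ B) = B.subgroupOf A := by
    ext a
    rw [MulAction.mem_stabilizer_iff, Subgroup.mem_subgroupOf]
    have h2 : (a • ((1 : G) : G ⧸ B)) = (((a : G) * 1 : G) : G ⧸ B) := rfl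
    rw [h2, eq_comm, QuotientGroup.eq]
    simp
  have h2 : MulAction.orbit A ((1 : G) : G ⧸ B) = Set.univ := by
    rw [Set.eq_univ_iff_forall]
    intro x
    induction x using QuotientGroup.induction_on with
    | H x =>
      obtain ⟨a, ha, b, hb, rfl⟩ := hAB x
      refine ⟨⟨a, ha⟩, ?_⟩
      show ((a * 1 : G) : G ⧸ B) = _
      rw [QuotientGroup.eq]
      simpa using hb
  have h3 : B.relIndex A = B.index := by
    have h4 := MulAction.index_stabilizer A ((1 : G) : G ⧸ B)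
    rw [h1, h2, Set.ncard_univ] at h4
    exact h4
  rw [← h3, ← Subgroup.inf_relIndex_left A B, Subgroup.relIndex_mul_index inf_le_left,
    Subgroup.card_mul_index]

theorem IDX : P_IDX := by
  classical
  intro G _ _ A B hAB g p a hp ho
  have hex : ∀ C : Subgroup G, ∃ c ≤ a, Q C g p a c ∧ ∀ c' ≤ a, Q C g p a c' → c' ≤ c := by
    intro C
    have h0 : Q C g p a 0 := by
      refine ⟨1, ?_⟩
      rw [Nat.sub_zero, ← ho, pow_orderOf_eq_one]
      simp
    refine ⟨Nat.findGreatest (Q C g p a) a, Nat.findGreatest_le a, ?_, ?_⟩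
    · exact Nat.findGreatest_spec (P := Q C g p a) (Nat.zero_le a) h0
    · intro c' hc' hQ
      exact Nat.le_findGreatest hc' hQ
  obtain ⟨cA, hcA, hQA, hmA⟩ := hex A
  obtain ⟨cB, hcB, hQB, hmB⟩ := hex B
  have hiA := dvd_index A g p a cA hp ho hmA
  have hiB := dvd_index B g p a cB hp ho hmB
  obtain ⟨m, hm⟩ : ∃ m, m = min cA cB := ⟨_, rfl⟩
  obtain ⟨x, hx⟩ := Q_mono A g p a cA m (by omega) hcA hQA
  obtain ⟨y, hy⟩ := Q_mono B g p a cB m (by omega) hcB hQB
  obtain ⟨z, hz⟩ : ∃ z, z = g ^ p ^ (a - m) := ⟨_, rfl⟩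
  rw [← hz] at hx hy
  have hma : m ≤ a := by omega
  have hoz : orderOf z = p ^ m := by
    rw [hz, orderOf_pow_of_dvd (pow_pos hp.pos _).ne' (by rw [ho]; exact pow_dvd_pow _ (by omega)),
      ho, Nat.pow_div (by omega) hp.pos]
    congr 1
    omega
  obtain ⟨c, hc, d, hd, hcd⟩ := hAB (x⁻¹ * y)
  have h1 : c⁻¹ * (x⁻¹ * z * x) * c = d * (y⁻¹ * z * y) * d⁻¹ := by
    have h2 : c = x⁻¹ * y * d⁻¹ := by rw [hcd]; group
    rw [h2]
    group
  have h2 : c⁻¹ * (x⁻¹ * z * x) * c ∈ A ⊓ B := by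
    refine ⟨A.mul_mem (A.mul_mem (A.inv_mem hc) hx) hc, ?_⟩
    rw [h1]
    exact B.mul_mem (B.mul_mem hd hy) (B.inv_mem hd)
  have h3 : orderOf (c⁻¹ * (x⁻¹ * z * x) * c) = p ^ m := by
    rw [← hoz]
    have h4 : c⁻¹ * (x⁻¹ * z * x) * c = (c⁻¹ * x⁻¹) * z * (c⁻¹ * x⁻¹)⁻¹ := by group
    rw [h4]
    exact (MulAut.conj (c⁻¹ * x⁻¹)).orderOf_eq z
  have h5 : p ^ m ∣ Nat.card (A ⊓ B : Subgroup G) := by
    rw [← h3]
    exact Subgroup.orderOf_dvd_natCard _ h2
  refine ⟨max cA cB, by omega, ?_, ?_⟩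
  · rw [card_eq A B hAB]
    have h6 : 2 * a - max cA cB = m + ((a - cB) + (a - cA)) := by omega
    rw [h6, pow_add, pow_add]
    exact mul_dvd_mul h5 (mul_dvd_mul hiB hiA)
  · rcases le_total cA cB with h | h
    · right
      rw [max_eq_right h]
      exact hQB
    · left
      rw [max_eq_left h]
      exact hQA

end Pool.Agent.W2helper71.KA2
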